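import Mathlib
import Pool.Agent.Lib.MP_d68153_an.Axis

/-!
# A non-axisymmetric Gavrilov flow in three dimensions
-/

set_option autoImplicit false

namespace Pool.Agent.Results.MP_d68153_an.HelicalFlow

open Pool.Agent.Lib.MP_d68153_an

/-- Euclidean three-space. -/
abbrev E3 : Type := EuclideanSpace ℝ (Fin 3)

/-- The vector field `u` is `C^∞` on `U`. -/
def SmoothField (U : Set E3) (u : E3 → E3) : Prop := ContDiffOn ℝ (⊤ : ℕ∞) u U

/-- The function `p` is `C^∞` on `U`. -/
def SmoothFun (U : Set E3) (p : E3 → ℝ) : Prop := ContDiffOn ℝ (⊤ : ℕ∞) p U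

/-- `(u·∇)u` at `x`: the derivative of `u` at `x` in the direction `u(x)`. -/
noncomputable def convective (u : E3 → E3) (x : E3) : E3 := fderiv ℝ u x (u x)

/-- The divergence of `u` at `x`. -/
noncomputable def divergence (u : E3 → E3) (x : E3) : ℝ :=
  ∑ i : Fin 3, (fderiv ℝ u x (EuclideanSpace.single i 1)) i

/-- The gradient of `p` at `x`. -/
noncomputable def grad (p : E3 → ℝ) (x : E3) : E3 := gradient p x

/-- `(u, p)` is a Gavrilov flow on `U`: a smooth solution of the steady Euler equations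
`(u·∇)u + grad p = 0`, `div u = 0` with `u · grad p = 0`. -/
structure IsGavrilovFlow (U : Set E3) (u : E3 → E3) (p : E3 → ℝ) : Prop where
  /-- the velocity is smooth on `U` -/
  smooth_velocity : SmoothField U u
  /-- the pressure is smooth on `U` -/
  smooth_pressure : SmoothFun U p
  /-- `(u·∇)u + grad p = 0` -/
  momentum : ∀ x ∈ U, convective u x + grad p x = 0
  /-- `div u = 0` -/
  div_free : ∀ x ∈ U, divergence u x = 0
  /-- `u · grad p = 0` -/
  orthogonal : ∀ x ∈ U, inner ℝ (u x) (grad p x) = 0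

/-- The linear isometry `A` is a rotation about the axis `ℝ e`: `A e = e` and `det A = 1`. -/
def IsRotation (e : E3) (A : E3 ≃ₗᵢ[ℝ] E3) : Prop :=
  A e = e ∧ LinearMap.det (A.toLinearEquiv : E3 →ₗ[ℝ] E3) = 1

/-- `(u, p)` on `U` is axisymmetric: there is a line `L = a + ℝ e` such that every rotation about
`L`, that is every map `x ↦ a + A (x - a)` with `A` a rotation about `ℝ e`,
preserves `p` and `u` wherever both sides are defined. -/
def IsAxisymmetric (U : Set E3) (u : E3 → E3) (p : E3 → ℝ) : Prop :=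
  ∃ a e : E3, e ≠ 0 ∧ ∀ A : E3 ≃ₗᵢ[ℝ] E3, IsRotation e A →
    ∀ x ∈ U, a + A (x - a) ∈ U → p (a + A (x - a)) = p x ∧ u (a + A (x - a)) = A (u x)

/-- There is a Gavrilov flow on a nonempty connected open set, without critical points of the
pressure, which is not axisymmetric; it is not axisymmetric on any nonempty open subset. -/
theorem result : ∃ (U : Set E3) (u : E3 → E3) (p : E3 → ℝ),
    IsOpen U ∧ IsConnected U ∧ IsGavrilovFlow U u p ∧ (∀ x ∈ U, grad p x ≠ 0) ∧
      ∀ V ⊆ U, IsOpen V → V.Nonempty → ¬ IsAxisymmetric V u p := by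
  obtain ⟨ε, hε, F, α, b, hF0, hα0, hb0, sF, sα, sb, hode⟩ := ode
  have h : Sol ε F α b := ⟨sF, sα, sb, fun t ht => (hode t ht).1, fun t ht => (hode t ht).2.1,
    fun t ht => (hode t ht).2.2.1, fun t ht => (hode t ht).2.2.2.1,
    fun t ht => (hode t ht).2.2.2.2⟩
  obtain ⟨W, Ψ, hWo, hWb, hΨ, hW⟩ := local_psi h hε hF0 hα0 hb0
  have hL : Loc ε F α b W Ψ := ⟨hWo, hWb, hΨ, fun y hy => (hW y hy).2.1,
    fun y hy => (hW y hy).2.2.1, fun y hy => (hW y hy).2.2.2⟩
  obtain ⟨r, hr, hball⟩ := Metric.isOpen_iff.mp (isOpen_Dom hL) _ (base_mem_Dom hL)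
  set U : Set E3 := Metric.ball (EuclideanSpace.single (0 : Fin 3) (1 : ℝ)) r with hU
  have hUD : ∀ x ∈ U, x ∈ Dom W := fun x hx => hball hx
  refine ⟨U, vel F α b Ψ, prs b Ψ, Metric.isOpen_ball, ?_, ?_, ?_, ?_⟩
  · exact ⟨⟨_, Metric.mem_ball_self hr⟩, (convex_ball _ _).isPreconnected⟩
  · refine ⟨(contDiffOn_vel h hL).mono hball, (contDiffOn_prs h hL).mono hball, ?_, ?_, ?_⟩
    · intro x hx
      unfold convective grad
      ext i
      have h1 := momentum h hL (hUD x hx) i
      rw [PiLp.add_apply, fderiv_coord (hasFDerivAt_vel h hL (hUD x hx)) (vel F α b Ψ x) i]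
      have h2 : (gradient (prs b Ψ) x) i
          = ((-2 * b (ps Ψ x)) • dps F α b Ψ x) (EuclideanSpace.single i 1) := by
        rw [gradient_prs h hL (hUD x hx)]
        fin_cases i <;> simp [dps]
      rw [h2, h1]
      rfl
    · intro x hx
      have h1 := Pool.Agent.Lib.MP_d68153_an.divergence h hL (hUD x hx)
      unfold HelicalFlow.divergence
      rw [← h1]
      apply Finset.sum_congr rfl
      intro i _
      exact fderiv_coord (hasFDerivAt_vel h hL (hUD x hx)) (EuclideanSpace.single i 1) i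
    · intro x hx
      have h1 := dps_vel h hL (hUD x hx)
      rw [real_inner_comm]
      unfold grad gradient
      rw [InnerProductSpace.toDual_symm_apply, (hasFDerivAt_prs h hL (hUD x hx)).fderiv,
        smul_apply, h1, smul_zero]
  · intro x hx h0
    have h1 := gradient_prs h hL (hUD x hx)
    unfold grad at h0
    rw [h0] at h1
    have h2 := congrArg (fun v : E3 => v 2) h1
    have hq := qq_pos hL (hUD x hx)
    have hb := h.hb _ (ps_mem hL (hUD x hx))
    simp at h2
    rcases h2 with h3 | h3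
    · exact hb.ne' h3
    · exact hq.ne' h3
  · rintro V hVU hVo hVne ⟨a, e, he, hA⟩
    exact not_axis h hL hVo hVne (hVU.trans hball) a e he
      fun A hAe hdet x hx hTx => (hA A ⟨hAe, hdet⟩ x hx hTx).1

end Pool.Agent.Results.MP_d68153_an.HelicalFlow
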